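import Mathlib

/-!
# Elementary closures and the Baum–Connes conjecture with coefficients
-/

set_option autoImplicit false

namespace Pool.Agent.R941.BC

/-- Classes of groups `B` (Baum–Connes conjecture with coefficients) and `S` (injectivity of the
assembly maps with coefficients) with their inheritance properties. -/
structure Inherit (B S : ∀ (G : Type) [Group G], Prop) : Prop where
  /-- subgroups -/
  sub : ∀ (G H : Type) [Group G] [Group H] [Countable H] (f : G →* H), Function.Injective f →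
    B H → B G
  /-- directed unions -/
  loc : ∀ (G : Type) [Group G] [Countable G], (∀ L : Subgroup G, L.FG → B L) → B G
  /-- extensions -/
  ext : ∀ (G : Type) [Group G] [Countable G] (N : Subgroup G) [N.Normal], B (G ⧸ N) →
    (∀ H : Subgroup G, N ≤ H → N.relIndex H ≠ 0 → B H) → B G
  /-- extensions and injectivity -/
  extS : ∀ (G : Type) [Group G] [Countable G] (N : Subgroup G) [N.Normal], S (G ⧸ N) →
    (∀ H : Subgroup G, N ≤ H → N.relIndex H ≠ 0 → B H) → S G

/-- The countable groups in `K` are in `B`, and `K` is closed under subgroups, finite powers and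
overgroups of finite index. -/
structure Hered (K B : ∀ (G : Type) [Group G], Prop) : Prop where
  le : ∀ (G : Type) [Group G] [Countable G], K G → B G
  sub : ∀ (G H : Type) [Group G] [Group H] (f : G →* H), Function.Injective f → K H → K G
  pow : ∀ (G : Type) [Group G] (ι : Type) [Finite ι], K G → K (ι → G)
  fin : ∀ (G : Type) [Group G] (L : Subgroup G), L.FiniteIndex → K L → K G

/-- the elementary closure of `K`: the smallest class which contains `K` and is closed under
subgroups, overgroups of finite index, extensions and directed unions -/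
inductive El (K : ∀ (G : Type) [Group G], Prop) : ∀ (G : Type) [Group G], Prop
  | base (G : Type) [Group G] : K G → El K G
  | sub (G H : Type) [Group G] [Group H] (f : G →* H) : Function.Injective f → El K H → El K G
  | fin (G : Type) [Group G] (L : Subgroup G) : L.FiniteIndex → El K L → El K G
  | ext (G : Type) [Group G] (N : Subgroup G) [N.Normal] : El K N → El K (G ⧸ N) → El K G
  | union (G : Type) [Group G] : (∀ L : Subgroup G, L.FG → El K L) → El K G

/-- all countable groups with a subgroup of finite index which embeds in a finite power of `G` are in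
`B` -/
def W (B : ∀ (G : Type) [Group G], Prop) (G : Type) [Group G] : Prop :=
  ∀ (H : Type) [Group H] [Countable H] (L : Subgroup H), L.FiniteIndex →
    ∀ (ι : Type) [Finite ι] (f : L →* (ι → G)), Function.Injective f → B H

variable {B S K : ∀ (G : Type) [Group G], Prop}

theorem W_base (h : Hered K B) (G : Type) [Group G] (hG : K G) : W B G := by
  intro H _ _ L hL ι _ f hf
  exact h.le H (h.fin H L hL (h.sub _ _ f hf (h.pow G ι hG)))

theorem W_sub (G H : Type) [Group G] [Group H] (g : G →* H) (hg : Function.Injective g)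
    (hH : W B H) : W B G := by
  intro T _ _ L hL ι _ f hf
  refine hH T L hL ι ((g.compLeft ι).comp f) fun x y hxy => hf ?_
  funext i
  exact hg (congrFun hxy i)

theorem W_fin (G : Type) [Group G] (G0 : Subgroup G) (hG0 : G0.FiniteIndex)
    (hW : W B G0) : W B G := by
  intro T _ _ L hL ι _ f hf
  -- the preimage
  let L' : Subgroup L := ⨅ i, G0.comap ((Pi.evalMonoidHom (fun _ : ι => G) i).comp f)
  have hL' : L'.FiniteIndex := by
    have : ∀ i, (G0.comap ((Pi.evalMonoidHom (fun _ : ι => G) i).comp f)).FiniteIndex := by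
      intro i
      refine ⟨?_⟩
      rw [Subgroup.index_comap]
      have h1 : (G0.subgroupOf ((Pi.evalMonoidHom (fun _ : ι => G) i).comp f).range).FiniteIndex :=
        inferInstance
      exact h1.index_ne_zero
    exact Subgroup.finiteIndex_iInf this
  have hmem : ∀ (x : L), x ∈ L' → ∀ i, f x i ∈ G0 := by
    intro x hx i
    have h1 := (Subgroup.mem_iInf.1 hx) i
    exact h1
  have hfi : (L'.map L.subtype).FiniteIndex := by
    refine ⟨?_⟩
    rw [Subgroup.index_map_subtype]
    exact mul_ne_zero hL'.index_ne_zero hL.index_ne_zero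
  refine hW T (L'.map L.subtype) hfi ι
    { toFun := fun x i => ⟨f ⟨x.1, Subgroup.map_subtype_le _ x.2⟩ i, by
        obtain ⟨y, hy, hyx⟩ := x.2
        have h1 : (⟨x.1, Subgroup.map_subtype_le _ x.2⟩ : L) = y := Subtype.ext hyx.symm
        rw [h1]
        exact hmem y hy i⟩
      map_one' := ?_
      map_mul' := ?_ } ?_
  · funext i
    apply Subtype.ext
    exact congrFun (map_one f) i
  · intro x y
    funext i
    apply Subtype.ext
    exact congrFun (map_mul f ⟨x.1, Subgroup.map_subtype_le _ x.2⟩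
      ⟨y.1, Subgroup.map_subtype_le _ y.2⟩) i
  · intro x y hxy
    apply Subtype.ext
    have h1 : f ⟨x.1, Subgroup.map_subtype_le _ x.2⟩ = f ⟨y.1, Subgroup.map_subtype_le _ y.2⟩ := by
      funext i
      exact congrArg Subtype.val (congrFun hxy i)
    exact congrArg (fun z : L => (z : T)) (hf h1)

theorem W_union (h : Inherit B S) (G : Type) [Group G]
    (hG : ∀ L : Subgroup G, L.FG → W B L) : W B G := by
  intro T _ _ L hL ι _ f hf
  refine h.loc T fun P hP => ?_
  have : Group.FG P := (Group.fg_iff_subgroup_fg P).2 hP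
  have hfi : (L.subgroupOf P).FiniteIndex := inferInstance
  have hfg : Group.FG (L.subgroupOf P) := Subgroup.fg_of_index_ne_zero _
  obtain ⟨E, hE⟩ := (Group.fg_iff.1 hfg)
  let g : (L.subgroupOf P) →* L :=
    { toFun := fun x => ⟨((x : P) : T), x.2⟩
      map_one' := rfl
      map_mul' := fun _ _ => rfl }
  have hg : Function.Injective g := fun x y hxy =>
    Subtype.ext (Subtype.ext (congrArg (fun z : L => (z : T)) hxy))
  let A : Set G := ⋃ i, (fun x : L.subgroupOf P => f (g x) i) '' E
  have hA : A.Finite := Set.finite_iUnion fun i => hE.2.image _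
  have hmem : ∀ (x : L.subgroupOf P) (i : ι), f (g x) i ∈ Subgroup.closure A := by
    intro x i
    have h1 : x ∈ Subgroup.closure E := by rw [hE.1]; trivial
    have h2 : (Subgroup.closure E) ≤ (Subgroup.closure A).comap
        ((Pi.evalMonoidHom (fun _ : ι => G) i).comp (f.comp g)) := by
      rw [Subgroup.closure_le]
      intro y hy
      exact Subgroup.subset_closure (Set.mem_iUnion.2 ⟨i, y, hy, rfl⟩)
    exact h2 h1
  refine hG (Subgroup.closure A) ⟨hA.toFinset, by simp⟩ P (L.subgroupOf P) hfi ι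
    { toFun := fun x i => ⟨f (g x) i, hmem x i⟩
      map_one' := by
        funext i
        apply Subtype.ext
        show f (g 1) i = 1
        rw [map_one, map_one]
        rfl
      map_mul' := fun x y => by
        funext i
        apply Subtype.ext
        show f (g (x * y)) i = f (g x) i * f (g y) i
        rw [map_mul, map_mul]
        rfl } ?_
  intro x y hxy
  apply hg
  apply hf
  funext i
  exact congrArg Subtype.val (congrFun hxy i)

/-- a homomorphism descends to a quotient -/
theorem desc {P Q H : Type} [Group P] [Group Q] [Group H] (q : P →* Q)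
    (hq : Function.Surjective q) (u : P →* H) (hk : q.ker ≤ u.ker) :
    ∃ h : Q →* H, ∀ x, h (q x) = u x := by
  refine ⟨q.liftOfSurjective hq ⟨u, hk⟩, fun x => ?_⟩
  exact MonoidHom.liftOfRightInverse_comp_apply q _ _ ⟨u, hk⟩ x

theorem W_ext (h : Inherit B S) (G : Type) [Group G] (N : Subgroup G) [N.Normal]
    (hN : W B N) (hQ : W B (G ⧸ N)) : W B G := by
  intro T _ _ L0 hL0 ι _ f0 hf0
  -- pass to the core
  obtain ⟨L, hLn, hL, f, hf⟩ : ∃ L : Subgroup T, L.Normal ∧ L.FiniteIndex ∧
      ∃ f : L →* (ι → G), Function.Injective f := by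
    refine ⟨L0.normalCore, inferInstance, inferInstance,
      f0.comp (Subgroup.inclusion L0.normalCore_le), ?_⟩
    exact hf0.comp (Subgroup.inclusion_injective L0.normalCore_le)
  -- the conjugates of `f`
  let J := T ⧸ L
  have hcj : ∀ (t : T) (x : L), t⁻¹ * (x : T) * t ∈ L := fun t x => by
    have := hLn.conj_mem x x.2 t⁻¹
    rwa [inv_inv] at this
  let Ψ : L →* (J × ι → G ⧸ N) :=
    { toFun := fun x p => QuotientGroup.mk (f ⟨p.1.out⁻¹ * (x : T) * p.1.out, hcj _ x⟩ p.2)
      map_one' := by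
        funext p
        have h1 : (⟨p.1.out⁻¹ * ((1 : L) : T) * p.1.out, hcj _ 1⟩ : L) = 1 :=
          Subtype.ext (by simp)
        show QuotientGroup.mk (f ⟨p.1.out⁻¹ * ((1 : L) : T) * p.1.out, hcj _ 1⟩ p.2) = 1
        rw [h1, map_one]
        rfl
      map_mul' := fun x y => by
        funext p
        have h1 : (⟨p.1.out⁻¹ * ((x * y : L) : T) * p.1.out, hcj _ (x * y)⟩ : L) =
          ⟨p.1.out⁻¹ * (x : T) * p.1.out, hcj _ x⟩ * ⟨p.1.out⁻¹ * (y : T) * p.1.out, hcj _ y⟩ :=
          Subtype.ext (by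
            show p.1.out⁻¹ * ((x : T) * (y : T)) * p.1.out =
              (p.1.out⁻¹ * (x : T) * p.1.out) * (p.1.out⁻¹ * (y : T) * p.1.out)
            group)
        show QuotientGroup.mk (f ⟨p.1.out⁻¹ * ((x * y : L) : T) * p.1.out, hcj _ (x * y)⟩ p.2) = _
        rw [h1, map_mul]
        rfl }
  have hΨ : ∀ x p, Ψ x p = QuotientGroup.mk (f ⟨p.1.out⁻¹ * (x : T) * p.1.out, hcj _ x⟩ p.2) :=
    fun _ _ => rfl
  -- membership in the kernel
  have hker : ∀ x : L, x ∈ Ψ.ker ↔ ∀ (t : T) (i : ι), f ⟨t⁻¹ * (x : T) * t, hcj t x⟩ i ∈ N := by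
    intro x
    constructor
    · intro hx t i
      -- write `t = out j * l`
      obtain ⟨j, hj⟩ : ∃ j : J, j = QuotientGroup.mk t := ⟨_, rfl⟩
      have hl : j.out⁻¹ * t ∈ L := by
        have h1 : (QuotientGroup.mk j.out : J) = QuotientGroup.mk t := by
          rw [← hj]
          exact Quotient.out_eq _
        exact QuotientGroup.eq.1 h1
      have h2 : (⟨t⁻¹ * (x : T) * t, hcj t x⟩ : L) = (⟨j.out⁻¹ * t, hl⟩ : L)⁻¹ *
          ⟨j.out⁻¹ * (x : T) * j.out, hcj _ x⟩ * ⟨j.out⁻¹ * t, hl⟩ :=
        Subtype.ext (by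
          show t⁻¹ * (x : T) * t = (j.out⁻¹ * t)⁻¹ * (j.out⁻¹ * (x : T) * j.out) * (j.out⁻¹ * t)
          group)
      have h3 : Ψ x (j, i) = 1 := by
        have h4 : Ψ x = 1 := hx
        rw [h4]
        rfl
      rw [hΨ] at h3
      have h5 : f ⟨j.out⁻¹ * (x : T) * j.out, hcj _ x⟩ i ∈ N := (QuotientGroup.eq_one_iff _).1 h3
      rw [h2, map_mul, map_mul, map_inv]
      have h6 := (inferInstance : N.Normal).conj_mem _ h5 (f ⟨j.out⁻¹ * t, hl⟩ i)⁻¹
      rw [inv_inv] at h6
      exact h6
    · intro hx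
      show Ψ x = 1
      funext p
      rw [hΨ]
      exact (QuotientGroup.eq_one_iff _).2 (hx _ _)
  let M : Subgroup T := Ψ.ker.map L.subtype
  have hML : M ≤ L := Subgroup.map_subtype_le _
  have hM : ∀ x : T, x ∈ M ↔ ∃ hx : x ∈ L, (⟨x, hx⟩ : L) ∈ Ψ.ker := by
    intro x
    constructor
    · rintro ⟨y, hy, rfl⟩
      exact ⟨y.2, hy⟩
    · rintro ⟨hx, hy⟩
      exact ⟨⟨x, hx⟩, hy, rfl⟩
  have hMn : M.Normal := by
    refine ⟨fun x hx s => ?_⟩
    obtain ⟨hxL, hxk⟩ := (hM x).1 hx
    refine (hM _).2 ⟨hLn.conj_mem x hxL s, (hker _).2 fun t i => ?_⟩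
    have h1 := (hker _).1 hxk (s⁻¹ * t) i
    have h2 : (⟨(s⁻¹ * t)⁻¹ * x * (s⁻¹ * t), hcj (s⁻¹ * t) ⟨x, hxL⟩⟩ : L) =
        ⟨t⁻¹ * (s * x * s⁻¹) * t, hcj t ⟨_, hLn.conj_mem x hxL s⟩⟩ :=
      Subtype.ext (by
        show (s⁻¹ * t)⁻¹ * x * (s⁻¹ * t) = t⁻¹ * (s * x * s⁻¹) * t
        group)
    rw [← h2]
    exact h1
  -- the quotient
  have hBQ : B (T ⧸ M) := by
    obtain ⟨q, hq⟩ : ∃ q : L →* (L.map (QuotientGroup.mk' M)), ∀ x, (q x : T ⧸ M) =
      QuotientGroup.mk (x : T) := ⟨(QuotientGroup.mk' M).subgroupMap L, fun _ => rfl⟩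
    have hqs : Function.Surjective q := by
      rintro ⟨_, x, hx, rfl⟩
      exact ⟨⟨x, hx⟩, Subtype.ext (hq _)⟩
    have hqk : ∀ x, q x = 1 ↔ x ∈ Ψ.ker := by
      intro x
      rw [← Subtype.coe_inj, hq]
      show (QuotientGroup.mk (x : T) : T ⧸ M) = 1 ↔ _
      rw [QuotientGroup.eq_one_iff, hM]
      exact ⟨fun ⟨_, h2⟩ => h2, fun h2 => ⟨x.2, h2⟩⟩
    obtain ⟨g, hg⟩ := desc q hqs Ψ fun x hx => (hqk x).1 hx
    have : (L.map (QuotientGroup.mk' M)).FiniteIndex := by
      refine ⟨fun h0 => hL.index_ne_zero ?_⟩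
      have h1 := Subgroup.index_map_dvd L (QuotientGroup.mk'_surjective M)
      have h2 : L = (L.map (QuotientGroup.mk' M)).comap (QuotientGroup.mk' M) := by
        rw [Subgroup.comap_map_eq, QuotientGroup.ker_mk', sup_eq_left.2 hML]
      rw [h2, Subgroup.index_comap_of_surjective _ (QuotientGroup.mk'_surjective M)]
      exact h0
    have : Countable (T ⧸ M) := (QuotientGroup.mk_surjective (s := M)).countable
    have : Finite J := inferInstance
    refine hQ (T ⧸ M) (L.map (QuotientGroup.mk' M)) inferInstance (J × ι) g ?_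
    rw [injective_iff_map_eq_one]
    intro y hy
    obtain ⟨x, rfl⟩ := hqs y
    rw [hg] at hy
    exact (hqk x).2 hy
  refine h.ext T M hBQ fun H hMH hfi => ?_
  refine hN H (M.subgroupOf H) ⟨hfi⟩ ι
    { toFun := fun x i => ⟨f ⟨((x : H) : T), hML x.2⟩ i, ?_⟩
      map_one' := ?_
      map_mul' := ?_ } ?_
  · obtain ⟨hxL, hxk⟩ := (hM ((x : H) : T)).1 x.2
    have h1 := (hker _).1 hxk 1 i
    have h2 : (⟨(1 : T)⁻¹ * ((⟨((x : H) : T), hxL⟩ : L) : T) * 1, hcj 1 ⟨_, hxL⟩⟩ : L) =
        ⟨((x : H) : T), hML x.2⟩ := Subtype.ext (by simp)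
    rw [h2] at h1
    exact h1
  · funext i
    apply Subtype.ext
    exact congrFun (map_one f) i
  · intro x y
    funext i
    apply Subtype.ext
    exact congrFun (map_mul f ⟨((x : H) : T), hML x.2⟩ ⟨((y : H) : T), hML y.2⟩) i
  · intro x y hxy
    apply Subtype.ext
    apply Subtype.ext
    have h1 : f ⟨((x : H) : T), hML x.2⟩ = f ⟨((y : H) : T), hML y.2⟩ := by
      funext i
      exact congrArg Subtype.val (congrFun hxy i)
    exact congrArg (fun z : L => (z : T)) (hf h1)

theorem el_W (h : Inherit B S) (hK : ∀ (G : Type) [Group G], K G → W B G) (G : Type) [Group G]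
    (hG : El K G) : W B G := by
  induction hG with
  | base G hG => exact hK G hG
  | sub G H f hf _ ih => exact W_sub G H f hf ih
  | fin G L hL _ ih => exact W_fin G L hL ih
  | ext G N _ _ ih1 ih2 => exact W_ext h G N ih1 ih2
  | union G _ ih => exact W_union h G ih

theorem W_over (G : Type) [Group G] [Countable G] (N : Subgroup G) (hN : W B N) (H : Subgroup G)
    (hNH : N ≤ H) (hfi : N.relIndex H ≠ 0) : B H := by
  refine hN H (N.subgroupOf H) ⟨hfi⟩ Unit
    { toFun := fun x _ => ⟨((x : H) : G), x.2⟩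
      map_one' := rfl
      map_mul' := fun _ _ => rfl } ?_
  intro x y hxy
  have h1 := congrFun hxy ()
  exact Subtype.ext (Subtype.ext (congrArg (fun z : N => (z : G)) h1))

theorem W_le (G : Type) [Group G] [Countable G] (hG : W B G) : B G := by
  refine hG G ⊤ inferInstance Unit
    { toFun := fun x _ => (x : G)
      map_one' := rfl
      map_mul' := fun _ _ => rfl } ?_
  intro x y hxy
  exact Subtype.ext (congrFun hxy ())

/-- **the class `W B` is closed under extensions** -/
theorem main (h : Inherit B S) :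
    (∀ (G : Type) [Group G], El (W B) G → W B G) ∧
    (∀ (G : Type) [Group G] [Countable G], W B G → B G) ∧
    (∀ (G : Type) [Group G] [Countable G] (N : Subgroup G) [N.Normal], W B N → B (G ⧸ N) → B G) ∧
    (∀ (G : Type) [Group G] [Countable G] (N : Subgroup G) [N.Normal], W B N → S (G ⧸ N) → S G) ∧
    ∀ K : ∀ (G : Type) [Group G], Prop, Hered K B → ∀ (G : Type) [Group G], El K G → W B G :=
  ⟨fun G _ hG => el_W h (fun _ _ h1 => h1) G hG, fun G _ _ hG => W_le G hG,
    fun G _ _ N _ hN hQ => h.ext G N hQ (W_over G N hN),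
    fun G _ _ N _ hN hQ => h.extS G N hQ (W_over G N hN),
    fun _ hK G _ hG => el_W h (W_base hK) G hG⟩

end Pool.Agent.R941.BC
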